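import Pool.Agent.H487.GP.Stm

set_option autoImplicit false

/-!
# `S_PERS` (helper909 for helper487): periodic sets under measures close to a Gaussian one
-/

open Finset Complex Filter Topology Metric Set MeasureTheory

namespace Pool.Agent.H487.GP

namespace PERS

/-! ### the sets -/

lemma SS_mono {a b c d : ℝ} (h1 : c ≤ a) (h2 : b ≤ d) : SS a b ⊆ SS c d := by
  rintro x ⟨j, hj1, hj2⟩
  exact ⟨j, h1.trans hj1, hj2.trans h2⟩

lemma SS_eq (a b : ℝ) : SS a b = ⋃ j : ℤ, Set.Icc (Real.pi * (j - b)) (Real.pi * (j - a)) := by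
  have hp := Real.pi_pos
  ext x
  rw [Set.mem_iUnion]
  refine exists_congr fun j => ?_
  have hx : x = Real.pi * (x / Real.pi) := by field_simp
  constructor
  · rintro ⟨h1, h2⟩
    refine ⟨?_, ?_⟩
    · rw [hx]; exact mul_le_mul_of_nonneg_left (by linarith) hp.le
    · rw [hx]; exact mul_le_mul_of_nonneg_left (by linarith) hp.le
  · rintro ⟨h1, h2⟩
    rw [hx] at h1 h2
    have h3 := le_of_mul_le_mul_left h1 hp
    have h4 := le_of_mul_le_mul_left h2 hp
    exact ⟨by linarith, by linarith⟩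

lemma SS_meas (a b : ℝ) : MeasurableSet (SS a b) := by
  rw [SS_eq]
  exact MeasurableSet.iUnion fun j => measurableSet_Icc

lemma SS_null (ν : Measure ℝ) [NullSingletonClass ν] (a : ℝ) : ν.real (SS a a) = 0 := by
  have h : ν (SS a a) = 0 := by
    apply Set.Countable.measure_zero
    rw [SS_eq]
    apply Set.countable_iUnion
    intro j
    rw [Set.Icc_self]
    exact Set.countable_singleton _
  rw [Measure.real, h, ENNReal.toReal_zero]

lemma SS_univ {a b : ℝ} (h : a + 1 ≤ b) : SS a b = Set.univ := by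
  rw [Set.eq_univ_iff_forall]
  intro x
  refine ⟨⌈a + x / Real.pi⌉, ?_, ?_⟩
  · have := Int.le_ceil (a + x / Real.pi)
    linarith
  · have := Int.ceil_lt_add_one (a + x / Real.pi)
    linarith

lemma SS_compl {a b : ℝ} : (SS a b)ᶜ ⊆ SS b (a + 1) := by
  intro x hx
  -- the smallest element of the coset which is `≥ a`
  have h1 := Int.le_ceil (a + x / Real.pi)
  have h2 := Int.ceil_lt_add_one (a + x / Real.pi)
  refine ⟨⌈a + x / Real.pi⌉, ?_, by linarith⟩
  by_contra h
  exact hx ⟨⌈a + x / Real.pi⌉, by linarith, by linarith⟩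

lemma SS_inter {a b : ℝ} : SS b (a + 1) ⊆ (SS a b)ᶜ ∪ (SS a a ∪ SS b b) := by
  rintro x ⟨j, hj1, hj2⟩
  by_cases hx : x ∈ SS a b
  · right
    obtain ⟨i, hi1, hi2⟩ := hx
    have h1 : ((i : ℤ) : ℝ) ≤ j := by linarith
    have h2 : ((j : ℤ) : ℝ) ≤ i + 1 := by linarith
    have h1' : i ≤ j := by exact_mod_cast h1
    have h2' : j ≤ i + 1 := by exact_mod_cast h2
    rcases eq_or_lt_of_le h1' with h | h
    · right
      subst h
      exact ⟨i, hj1, hi2⟩
    · left
      have h3 : j = i + 1 := by omega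
      subst h3
      push_cast at hj1 hj2
      exact ⟨i, hi1, by linarith⟩
  · left
    exact hx

/-! ### intervals -/

lemma Ioc_eq (μ : Measure ℝ) [IsProbabilityMeasure μ] {u v : ℝ} (h : u ≤ v) :
    μ.real (Set.Ioc u v) = μ.real (Set.Iic v) - μ.real (Set.Iic u) := by
  have e1 : Set.Ioc u v = Set.Iic v \ Set.Iic u := by
    ext x
    simp only [Set.mem_Ioc, Set.mem_sdiff, Set.mem_Iic, not_le]
    exact and_comm
  rw [e1, measureReal_sdiff (Set.Iic_subset_Iic.2 h) measurableSet_Iic]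

lemma cmp_Icc (μ ν : Measure ℝ) [IsProbabilityMeasure μ] [IsProbabilityMeasure ν] {ε' : ℝ}
    (h : ∀ a : ℝ, |μ.real (Set.Iic a) - ν.real (Set.Iic a)| ≤ ε') {c d η : ℝ} (hη : 0 < η)
    (hcd : c ≤ d) : μ.real (Set.Icc c d) ≤ ν.real (Set.Ioc (c - η) d) + 2 * ε' := by
  have h1 : μ.real (Set.Icc c d) ≤ μ.real (Set.Ioc (c - η) d) := by
    refine measureReal_mono ?_
    intro x hx
    exact ⟨by linarith [hx.1], hx.2⟩
  rw [Ioc_eq μ (by linarith)] at h1
  rw [Ioc_eq ν (by linarith)]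
  have h2 := abs_le.1 (h d)
  have h3 := abs_le.1 (h (c - η))
  linarith [h2.1, h2.2, h3.1, h3.2]

lemma exM (ν : Measure ℝ) [IsProbabilityMeasure ν] {ε : ℝ} (hε : 0 < ε) :
    ∃ M : ℝ, 1 ≤ M ∧ ν.real (Set.Iic (-M)) ≤ ε ∧ 1 - ε ≤ ν.real (Set.Iic M) := by
  have h1 := (ProbabilityTheory.tendsto_cdf_atTop ν).eventually
    (lt_mem_nhds (show (1 : ℝ) - ε < 1 by linarith))
  have h2 := ((ProbabilityTheory.tendsto_cdf_atBot ν).comp tendsto_neg_atTop_atBot).eventually
    (gt_mem_nhds hε)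
  obtain ⟨M, hM1, hM2, hM3⟩ := (h1.and (h2.and (eventually_ge_atTop (1 : ℝ)))).exists
  refine ⟨M, hM3, ?_, ?_⟩
  · rw [← ProbabilityTheory.cdf_eq_real]
    exact hM2.le
  · rw [← ProbabilityTheory.cdf_eq_real]
    exact hM1.le

lemma card_le {u v : ℝ} {N : ℝ} (hN : 0 ≤ N) (h : v + 1 - u ≤ N) :
    (((Finset.Icc ⌈u⌉ ⌊v⌋).card : ℕ) : ℝ) ≤ N := by
  rw [Int.card_Icc]
  rcases le_total (⌊v⌋ + 1 - ⌈u⌉) 0 with hz | hz
  · rw [Int.toNat_of_nonpos hz, Nat.cast_zero]
    exact hN
  · have h1 : (((⌊v⌋ + 1 - ⌈u⌉).toNat : ℕ) : ℝ) = (((⌊v⌋ + 1 - ⌈u⌉ : ℤ)) : ℝ) := by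
      have h2 := Int.toNat_of_nonneg hz
      have h3 : ((((⌊v⌋ + 1 - ⌈u⌉).toNat : ℕ) : ℤ) : ℝ) = (((⌊v⌋ + 1 - ⌈u⌉ : ℤ)) : ℝ) := by
        rw [h2]
      rw [← h3, Int.cast_natCast]
    rw [h1]
    push_cast
    have h4 := Int.floor_le v
    have h5 := Int.le_ceil u
    linarith

theorem core (ν : Measure ℝ) [IsProbabilityMeasure ν] {κ : ℝ} (hκ : 0 ≤ κ)
    (hν : ∀ u v : ℝ, u ≤ v → ν.real (Set.Ioc u v) ≤ κ * (v - u)) {ε : ℝ} (hε : 0 < ε) :
    ∃ e ε' : ℝ, 0 < e ∧ 0 < ε' ∧ ∀ μ : Measure ℝ, IsProbabilityMeasure μ →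
      (∀ a : ℝ, |μ.real (Set.Iic a) - ν.real (Set.Iic a)| ≤ ε') → ∀ a b : ℝ, a ≤ b → b ≤ a + 1 →
      μ.real (SS (a - e) (b + e)) ≤ ν.real (SS a b) + ε := by
  have hp := Real.pi_pos
  obtain ⟨M, hM1, hM2, hM3⟩ := exM ν (show 0 < ε / 8 by positivity)
  set N : ℝ := 2 * M + 4 with hN
  have hN0 : 0 < N := by linarith
  set e : ℝ := min 1 (ε / (12 * Real.pi * N * (κ + 1))) with he
  set ε' : ℝ := ε / (8 * (N + 1)) with hε'
  have he0 : 0 < e := lt_min one_pos (by positivity)
  have he1 : e ≤ 1 := min_le_left _ _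
  have he2 : N * (3 * Real.pi * e * κ) ≤ ε / 4 := by
    have h1 : e ≤ ε / (12 * Real.pi * N * (κ + 1)) := min_le_right _ _
    rw [le_div_iff₀ (by positivity)] at h1
    have h2 : N * (3 * Real.pi * e * κ) ≤ N * (3 * Real.pi * e * (κ + 1)) := by
      apply mul_le_mul_of_nonneg_left _ hN0.le
      apply mul_le_mul_of_nonneg_left _ (by positivity)
      linarith
    nlinarith
  have hε'0 : 0 < ε' := by positivity
  have hε'1 : 2 * ε' * (N + 1) = ε / 4 := by
    rw [hε']; field_simp; ring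
  refine ⟨e, ε', he0, hε'0, ?_⟩
  intro μ hμ h a b hab hba
  -- the finite set of indices
  set J : Finset ℤ := Finset.Icc ⌈a - e - M / Real.pi⌉ ⌊b + e + M / Real.pi⌋ with hJ
  have hMp : M / Real.pi ≤ M := by
    apply div_le_self (by linarith)
    linarith [Real.pi_gt_three]
  have hcard : ((J.card : ℕ) : ℝ) ≤ N := card_le hN0.le (by rw [hN]; linarith)
  have hsub : SS (a - e) (b + e) ⊆ (Set.Iic (-M) ∪ (Set.Iic M)ᶜ) ∪
      ⋃ j ∈ J, Set.Icc (Real.pi * (j - (b + e))) (Real.pi * (j - (a - e))) := by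
    intro x hx
    rcases le_or_gt x (-M) with h1 | h1
    · exact Or.inl (Or.inl h1)
    rcases le_or_gt x M with h2 | h2
    · right
      have hx' := hx
      rw [SS_eq, Set.mem_iUnion] at hx'
      obtain ⟨j, hj⟩ := hx'
      rw [Set.mem_iUnion₂]
      refine ⟨j, ?_, hj⟩
      have e1 : Real.pi * (j - (b + e)) ≤ M := hj.1.trans h2
      have e2 : -M ≤ Real.pi * (j - (a - e)) := h1.le.trans hj.2
      have e3 : (j : ℝ) - (b + e) ≤ M / Real.pi := by
        rw [le_div_iff₀ hp]; linarith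
      have e4 : -(M / Real.pi) ≤ (j : ℝ) - (a - e) := by
        have : -(M / Real.pi) = (-M) / Real.pi := by ring
        rw [this, div_le_iff₀ hp]; linarith
      rw [hJ, Finset.mem_Icc]
      exact ⟨Int.ceil_le.2 (by linarith), Int.le_floor.2 (by linarith)⟩
    · exact Or.inl (Or.inr (by simpa using h2))
  have hJm : ∀ j : ℤ, Real.pi * ((j : ℝ) - (b + e)) ≤ Real.pi * (j - (a - e)) := by
    intro j
    apply mul_le_mul_of_nonneg_left _ hp.le
    linarith
  -- the tails
  have ht1 : μ.real (Set.Iic (-M)) ≤ ε / 8 + ε' := by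
    have := (abs_le.1 (h (-M))).2
    linarith
  have ht2 : μ.real (Set.Iic M)ᶜ ≤ ε / 8 + ε' := by
    rw [probReal_compl_eq_one_sub measurableSet_Iic]
    have := (abs_le.1 (h M)).1
    linarith
  -- the pieces
  have hpc : ∀ j ∈ J, μ.real (Set.Icc (Real.pi * (j - (b + e))) (Real.pi * (j - (a - e)))) ≤
      ν.real (Set.Ioc (Real.pi * (j - b)) (Real.pi * (j - a))) + (3 * Real.pi * e * κ + 2 * ε') := by
    intro j _
    have e1 := cmp_Icc μ ν h (show 0 < Real.pi * e by positivity) (hJm j)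
    have hpe : 0 < Real.pi * e := by positivity
    have q1 : Real.pi * ((j : ℝ) - (b + e)) - Real.pi * e ≤ Real.pi * (j - b) := by nlinarith
    have q2 : Real.pi * ((j : ℝ) - b) ≤ Real.pi * (j - a) :=
      mul_le_mul_of_nonneg_left (by linarith) hp.le
    have q3 : Real.pi * ((j : ℝ) - a) ≤ Real.pi * (j - (a - e)) :=
      mul_le_mul_of_nonneg_left (by linarith) hp.le
    have e2 := hν _ _ q1
    have e3 := hν _ _ q3
    rw [Ioc_eq ν q1] at e2
    rw [Ioc_eq ν q3] at e3
    rw [Ioc_eq ν (q1.trans (q2.trans q3))] at e1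
    rw [Ioc_eq ν q2]
    have e4 : κ * (Real.pi * ((j : ℝ) - b) - (Real.pi * (j - (b + e)) - Real.pi * e)) +
        κ * (Real.pi * (j - (a - e)) - Real.pi * (j - a)) = 3 * Real.pi * e * κ := by ring
    linarith
  -- the sum of the measures of disjoint intervals
  have hdis : ∑ j ∈ J, ν.real (Set.Ioc (Real.pi * ((j : ℝ) - b)) (Real.pi * (j - a))) ≤
      ν.real (SS a b) := by
    have hd : Set.PairwiseDisjoint (↑J : Set ℤ)
        (fun j : ℤ => Set.Ioc (Real.pi * ((j : ℝ) - b)) (Real.pi * (j - a))) := by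
      have key : ∀ i j : ℤ, i < j →
          Disjoint (Set.Ioc (Real.pi * ((i : ℝ) - b)) (Real.pi * (i - a)))
            (Set.Ioc (Real.pi * ((j : ℝ) - b)) (Real.pi * (j - a))) := by
        intro i j hij
        rw [Set.disjoint_left]
        rintro x hx1 hx2
        have h1 : ((i : ℤ) : ℝ) + 1 ≤ j := by exact_mod_cast hij
        have h2 : Real.pi * ((i : ℝ) - a) ≤ Real.pi * (j - b) :=
          mul_le_mul_of_nonneg_left (by linarith) hp.le
        have h3 := hx1.2
        have h4 := hx2.1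
        linarith
      intro i _ j _ hij
      rcases lt_or_gt_of_ne hij with h1 | h1
      · exact key i j h1
      · exact (key j i h1).symm
    rw [← measureReal_biUnion_finset hd (fun j _ => measurableSet_Ioc)]
    refine measureReal_mono ?_
    intro x hx
    rw [Set.mem_iUnion₂] at hx
    obtain ⟨j, _, hj⟩ := hx
    rw [SS_eq, Set.mem_iUnion]
    exact ⟨j, hj.1.le, hj.2⟩
  have hf1 : μ.real (SS (a - e) (b + e)) ≤ μ.real (Set.Iic (-M)) + μ.real (Set.Iic M)ᶜ +
      ∑ j ∈ J, μ.real (Set.Icc (Real.pi * (j - (b + e))) (Real.pi * (j - (a - e)))) := by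
    refine (measureReal_mono hsub).trans ((measureReal_union_le _ _).trans ?_)
    exact add_le_add (measureReal_union_le _ _) (measureReal_biUnion_finset_le _ _)
  have hf2 := Finset.sum_le_sum hpc
  rw [Finset.sum_add_distrib, Finset.sum_const, nsmul_eq_mul] at hf2
  have hf3 : ((J.card : ℕ) : ℝ) * (3 * Real.pi * e * κ + 2 * ε') ≤
      N * (3 * Real.pi * e * κ + 2 * ε') :=
    mul_le_mul_of_nonneg_right hcard (by positivity)
  have hf4 : N * (3 * Real.pi * e * κ + 2 * ε') + 2 * ε' =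
      N * (3 * Real.pi * e * κ) + 2 * ε' * (N + 1) := by ring
  linarith

lemma gauss_Ioc {s : NNReal} (hs : s ≠ 0) (u v : ℝ) (huv : u ≤ v) :
    (ProbabilityTheory.gaussianReal 0 s).real (Set.Ioc u v) ≤
      (Real.sqrt (2 * Real.pi * s))⁻¹ * (v - u) := by
  have h0 : (0 : ℝ) ≤ (Real.sqrt (2 * Real.pi * s))⁻¹ := by positivity
  have h1 : ProbabilityTheory.gaussianReal 0 s (Set.Ioc u v) ≤
      ENNReal.ofReal ((Real.sqrt (2 * Real.pi * s))⁻¹ * (v - u)) := by
    rw [ProbabilityTheory.gaussianReal_apply 0 hs]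
    calc ∫⁻ x in Set.Ioc u v, ProbabilityTheory.gaussianPDF 0 s x
        ≤ ∫⁻ _ in Set.Ioc u v, ENNReal.ofReal ((Real.sqrt (2 * Real.pi * s))⁻¹) := by
          apply lintegral_mono
          intro x
          rw [ProbabilityTheory.gaussianPDF]
          apply ENNReal.ofReal_le_ofReal
          rw [ProbabilityTheory.gaussianPDFReal]
          have h2 : Real.exp (-(x - 0) ^ 2 / (2 * (s : ℝ))) ≤ 1 := by
            rw [Real.exp_le_one_iff]
            apply div_nonpos_of_nonpos_of_nonneg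
            · nlinarith [sq_nonneg (x - 0)]
            · positivity
          exact mul_le_of_le_one_right h0 h2
      _ = ENNReal.ofReal ((Real.sqrt (2 * Real.pi * s))⁻¹ * (v - u)) := by
          rw [setLIntegral_const, Real.volume_Ioc, ENNReal.ofReal_mul h0]
  rw [Measure.real]
  refine (ENNReal.toReal_mono ENNReal.ofReal_ne_top h1).trans ?_
  rw [ENNReal.toReal_ofReal (mul_nonneg h0 (by linarith))]

end PERS

open PERS in
theorem pers_proof : S_PERS := by
  intro s hs ε hε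
  have hna : NullSingletonClass (ProbabilityTheory.gaussianReal 0 s) :=
    ProbabilityTheory.nullSingletonClass_gaussianReal hs
  obtain ⟨e, ε', he, hε', H⟩ := core (ProbabilityTheory.gaussianReal 0 s)
    (show (0 : ℝ) ≤ (Real.sqrt (2 * Real.pi * s))⁻¹ by positivity) (gauss_Ioc hs) hε
  -- the upper bound for all `a`, `b`
  have hU : ∀ μ : Measure ℝ, IsProbabilityMeasure μ →
      (∀ a : ℝ, |μ.real (Set.Iic a) -
        (ProbabilityTheory.gaussianReal 0 s).real (Set.Iic a)| ≤ ε') → ∀ a b : ℝ,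
      μ.real (SS (a - e) (b + e)) ≤ (ProbabilityTheory.gaussianReal 0 s).real (SS a b) + ε := by
    intro μ hμ h a b
    rcases le_or_gt a b with hab | hab
    · rcases le_or_gt b (a + 1) with hba | hba
      · exact H μ hμ h a b hab hba
      · rw [SS_univ hba.le, probReal_univ]
        have : μ.real (SS (a - e) (b + e)) ≤ 1 := measureReal_le_one
        linarith
    · have h1 := H μ hμ h b b le_rfl (by linarith)
      rw [SS_null] at h1
      have h2 : μ.real (SS (a - e) (b + e)) ≤ μ.real (SS (b - e) (b + e)) :=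
        measureReal_mono (SS_mono (by linarith) le_rfl)
      have h3 : 0 ≤ (ProbabilityTheory.gaussianReal 0 s).real (SS a b) := measureReal_nonneg
      linarith
  refine ⟨e, ε', he, hε', fun μ hμ h a b => ⟨hU μ hμ h a b, ?_⟩⟩
  rcases le_or_gt (b - a) (2 * e) with hab | hab
  · have h1 := hU (ProbabilityTheory.gaussianReal 0 s) inferInstance
      (fun a => by rw [sub_self, abs_zero]; exact hε'.le) ((a + b) / 2) ((a + b) / 2)
    rw [SS_null] at h1
    have h2 : (ProbabilityTheory.gaussianReal 0 s).real (SS a b) ≤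
        (ProbabilityTheory.gaussianReal 0 s).real (SS ((a + b) / 2 - e) ((a + b) / 2 + e)) :=
      measureReal_mono (SS_mono (by linarith) (by linarith))
    have h3 : 0 ≤ μ.real (SS (a + e) (b - e)) := measureReal_nonneg
    linarith
  · have h1 := hU μ hμ h b (a + 1)
    have h2 : μ.real (SS (a + e) (b - e))ᶜ ≤ μ.real (SS (b - e) (a + 1 + e)) := by
      refine measureReal_mono ?_
      refine SS_compl.trans (SS_mono le_rfl (by linarith))
    rw [probReal_compl_eq_one_sub (SS_meas _ _)] at h2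
    have h3 : (ProbabilityTheory.gaussianReal 0 s).real (SS b (a + 1)) ≤
        1 - (ProbabilityTheory.gaussianReal 0 s).real (SS a b) := by
      rw [← probReal_compl_eq_one_sub (SS_meas a b)]
      refine (measureReal_mono SS_inter).trans ((measureReal_union_le _ _).trans ?_)
      have h4 := measureReal_union_le (μ := ProbabilityTheory.gaussianReal 0 s) (SS a a) (SS b b)
      rw [SS_null, SS_null] at h4
      linarith
    linarith

end Pool.Agent.H487.GP
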